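import Pool.Agent.Y121.AHS.Defs

/-!
# Hodge classes on the powers of a variety: definitions

In the intended use the varieties are the smooth projective ones over the field of complex numbers
and `T` is the theory `X ↦ H(X, ℚ)`.
-/

open CategoryTheory AlgebraicGeometry

universe u

namespace Run7.h853.Ho.D

open Module
open Pool.Agent.H914 Pool.Agent.H914.VarClass Pool.Agent.H914.VarClass.Obj
  Pool.Agent.H914.WeilCohomology
open Pool.Agent.Y121.AHS

section Alg

variable {K A B C : Type} [Field K] [Ring A] [Algebra K A] [Ring B] [Algebra K B] [Ring C]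
  [Algebra K C]

/-- The element `x` is a polynomial, with coefficients in `K`, in elements with the property `P`:
it lies in the smallest subalgebra which contains them. -/
def IsPoly (K : Type) {A : Type} [Field K] [Ring A] [Algebra K A] (P : A → Prop) (x : A) : Prop :=
  x ∈ Algebra.adjoin K {y | P y}

/-- The element `f(y)`. -/
def appAt (f : A →ₐ[K] B) (y : A) : B := f y

/-- The element `s (c · p(x))`. -/
def corrAt (p : A →ₐ[K] C) (s : C →ₗ[K] B) (c : C) (x : A) : B := s (c * p x)

end Alg

variable {k : Type u} [Field k] {𝒱 : VarClass k} {ops : CycleOps 𝒱}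

/-- The class `x` on `Y` is the pull-back `f^*(y)` of a Hodge class `y` on `P` under a morphism
`f : Y ⟶ P`. -/
def FromPull (T : HodgeTheory ops) (P : 𝒱.Obj) {Y : 𝒱.Obj} (x : T.W.H Y) : Prop :=
  ∃ (f : Y ⟶ P) (j : ℕ) (y : T.W.H P), IsHodge T P j y ∧ appAt (T.W.map f) y = x

/-- The correspondence given by the cycle `z` on `X × Y`, `x ↦ pr₂_* (cl z · pr₁^* x)`. -/
noncomputable def corrT (T : HodgeTheory ops) {X Y : 𝒱.Obj} (z : (X.prod Y).Cycles)
    (x : T.W.H X) : T.W.H Y :=
  corrAt (T.W.map (fst X Y)) (T.W.push (snd X Y)) (T.W.cl (X.prod Y) z) x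

/-- The Hodge conjecture for `Y`: every Hodge class on `Y` is the class of an algebraic cycle with
rational coefficients. -/
def HodgeFor (T : HodgeTheory ops) (Y : 𝒱.Obj) : Prop :=
  ∀ (j : ℕ) (c : T.W.H Y), IsHodge T Y j c → ∃ z, Y.IsCyc j z ∧ T.W.cl Y z = c

/-- `Y` is a product of `n` copies of `X`. -/
inductive PowerOf (X : 𝒱.Obj) : ℕ → 𝒱.Obj → Prop
  | one : PowerOf X 1 X
  | prod {n m : ℕ} {Y Y' : 𝒱.Obj} : PowerOf X n Y → PowerOf X m Y' →
      PowerOf X (n + m) (Y.prod Y')

/-- `Y` is a product of copies of `X`, or the cohomology of `Y` comes from such products by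
algebraic correspondences: the identity of `H(Y)` is a finite sum of compositions
`H(Y) → H(P) → H(Y)` of correspondences given by algebraic cycles, where the `P` are such
products. -/
def Dominated (T : HodgeTheory ops) (X Y : 𝒱.Obj) : Prop :=
  (∃ n, PowerOf X n Y) ∨ ∃ (r : ℕ) (P : Fin r → 𝒱.Obj) (n a b : Fin r → ℕ)
    (u : ∀ i, (Y.prod (P i)).Cycles) (v : ∀ i, ((P i).prod Y).Cycles),
    (∀ i, PowerOf X (n i) (P i) ∧ (Y.prod (P i)).IsCyc (a i) (u i) ∧
      ((P i).prod Y).IsCyc (b i) (v i)) ∧
    ∀ y : T.W.H Y, ∑ i, corrT T (v i) (corrT T (u i) y) = y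

end Run7.h853.Ho.D
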