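import Pool.Agent.Run7.h853.Ho.Re
import Pool.Agent.Run7.h853.Ho.Defs
import Pool.Agent.Run7.h853.Cg.B1

/-!
# The final theorem
-/

set_option linter.unusedSectionVars false
set_option linter.unusedVariables false

open CategoryTheory AlgebraicGeometry TensorProduct

universe u

namespace Run7.h853.Ho.D

open Module
open Pool.Agent.H914 Pool.Agent.H914.VarClass Pool.Agent.H914.VarClass.Obj
  Pool.Agent.H914.WeilCohomology
open Pool.Agent.Y121.AHS
open Pool.Agent.Y133.Half
open Pool.Agent.Y121.AH (hodgePred)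
open Run7.h38.KF (cl_mem_alg exists_cyc')
open Run7.h853.Gn (Pn)

variable {k : Type u} [Field k] {𝒱 : VarClass k} {ops : CycleOps 𝒱} {T : HodgeTheory ops}
  {X Y P : 𝒱.Obj}

lemma pow_iff {n : ℕ} : PowerOf X n Y ↔ Pn X n Y := by
  constructor
  · intro h
    induction h with
    | one => exact Pn.one
    | prod _ _ h1 h2 => exact Pn.prod h1 h2
  · intro h
    induction h with
    | one => exact PowerOf.one
    | prod _ _ h1 h2 => exact PowerOf.prod h1 h2

lemma sp_alg (h : HodgeFor T P) : (hodgePred (toH T)).sp P ≤ (algSys T.W).C P := by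
  refine Submodule.span_le.2 ?_
  rintro c ⟨j, hc⟩
  obtain ⟨z, hz, rfl⟩ := h j c hc
  exact cl_mem_alg hz

lemma adj_alg (h : HodgeFor T P) {x : T.W.H Y} (hx : x ∈ Algebra.adjoin T.W.K
    {x | ∃ (f : Y ⟶ P) (y : T.W.H P), y ∈ (hodgePred (toH T)).sp P ∧ T.W.map f y = x}) :
    x ∈ (algSys T.W).C Y := by
  induction hx using Algebra.adjoin_induction with
  | mem x hx =>
    obtain ⟨f, y, hy, rfl⟩ := hx
    exact (algSys T.W).map f (sp_alg h hy)
  | algebraMap r =>
    rw [Algebra.algebraMap_eq_smul_one]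
    exact Submodule.smul_mem _ _ ((algSys T.W).one Y)
  | add x y _ _ hx hy => exact Submodule.add_mem _ hx hy
  | mul x y _ _ hx hy => exact (algSys T.W).mul hx hy

lemma adj_poly {x : T.W.H Y} (hx : x ∈ Algebra.adjoin T.W.K
    {x | ∃ (f : Y ⟶ P) (y : T.W.H P), y ∈ (hodgePred (toH T)).sp P ∧ T.W.map f y = x}) :
    IsPoly T.W.K (FromPull T P) x := by
  have h1 : {x : T.W.H Y | ∃ (f : Y ⟶ P) (y : T.W.H P), y ∈ (hodgePred (toH T)).sp P ∧
      T.W.map f y = x} ⊆ (Algebra.adjoin T.W.K {x : T.W.H Y | FromPull T P x} :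
        Set (T.W.H Y)) := by
    rintro x ⟨f, y, hy, rfl⟩
    refine ClassPred.sp_ind (Q := hodgePred (toH T)) (q := fun y => T.W.map f y ∈
      Algebra.adjoin T.W.K {x : T.W.H Y | FromPull T P x}) ?_ ?_ ?_ hy
    · intro j y hy
      exact Algebra.subset_adjoin ⟨f, j, y, hy, rfl⟩
    · have h2 : T.W.map f (0 : T.W.H P) ∈ Algebra.adjoin T.W.K {x : T.W.H Y | FromPull T P x} := by
        rw [map_zero]
        exact Subalgebra.zero_mem _
      exact h2
    · intro a b ha hb
      have h2 : T.W.map f (show T.W.H P from a) + T.W.map f (show T.W.H P from b) ∈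
          Algebra.adjoin T.W.K {x : T.W.H Y | FromPull T P x} := Subalgebra.add_mem _ ha hb
      rw [← map_add] at h2
      exact h2
  exact Algebra.adjoin_le h1 hx

/-- **The final theorem.** -/
theorem main (T : HodgeTheory ops) (X : 𝒱.Obj) :
    ∃ M, 0 < M ∧ ∀ P, PowerOf X M P →
      (∀ n Y, PowerOf X n Y → ∀ j, ∀ c : T.W.H Y, IsHodge T Y j c →
        IsPoly T.W.K (FromPull T P) c) ∧
      ((∀ Y, Dominated T X Y → HodgeFor T Y) ↔ HodgeFor T P) := by
  obtain ⟨M, hM⟩ := Run7.h853.Ho.hodge_ring (toH T) X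
  refine ⟨M + 1, by omega, fun P hP => ?_⟩
  have key : ∀ n Y, PowerOf X n Y → ∀ x ∈ (hodgePred (toH T)).sp Y, x ∈ Algebra.adjoin T.W.K
      {x : T.W.H Y | ∃ (f : Y ⟶ P) (y : T.W.H P), y ∈ (hodgePred (toH T)).sp P ∧
        T.W.map f y = x} := fun n Y hY x hx =>
    hM n (M + 1) Y P (pow_iff.1 hY) (pow_iff.1 hP) (by omega) x hx
  refine ⟨fun n Y hY j c hc => adj_poly (key n Y hY c (ClassPred.sp_of (Q := hodgePred (toH T)) hc)),
    fun h => h P (Or.inl ⟨_, hP⟩), fun h Y hY => ?_⟩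
  have hle : (hodgePred (toH T)).sp Y ≤ (algSys T.W).C Y := by
    rcases hY with ⟨n, hY⟩ | ⟨r, R, n, a, b, u, v, hR, hid⟩
    · exact fun c hc => adj_alg h (key n Y hY c hc)
    · have hcorr : ∀ {Y Y' : 𝒱.Obj} (S' : Sys (toH T).W) {z : (Y.prod Y').Cycles} {c : T.W.H Y},
          T.W.cl (Y.prod Y') z ∈ S'.C (Y.prod Y') → c ∈ S'.C Y → corrT T z c ∈ S'.C Y' := by
        intro Y Y' S' z c hz hc
        exact S'.push (snd Y Y') (S'.mul hz (S'.map (fst Y Y') hc))
      intro c hc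
      rw [← hid c]
      refine Submodule.sum_mem _ fun i _ => ?_
      have hu : corrT T (u i) c ∈ (hodgePred (toH T)).sp (R i) :=
        hcorr (hodgePred (toH T)).sys
          (ClassPred.alg_le (Q := hodgePred (toH T)) (cl_mem_alg (hR i).2.1)) hc
      exact hcorr (algSys T.W) (cl_mem_alg (hR i).2.2)
        (adj_alg h (key (n i) (R i) (hR i).1 _ hu))
  intro j c hc
  exact exists_cyc' T Y j c (hle (ClassPred.sp_of (Q := hodgePred (toH T)) hc)) hc.1

end Run7.h853.Ho.D
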