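import Pool.Agent.Run7.h853.Gn.Hm
import Pool.Agent.Y121.AH.HR

/-!
# Classes of positive codimension on the powers of a variety
-/

set_option linter.unusedSectionVars false
set_option linter.unusedVariables false

open CategoryTheory AlgebraicGeometry TensorProduct

universe u

namespace Run7.h853.Ho

open Module
open Pool.Agent.H914 Pool.Agent.H914.VarClass Pool.Agent.H914.VarClass.Obj
  Pool.Agent.H914.WeilCohomology
open Pool.Agent.Y133.Half Pool.Agent.Y121.AH Pool.Agent.N996.BP.Geo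
open Run7.h853.Gn (Fm Pn wf wf_map pt pt_map pt_sum pt_ins ins ins_zero exists_bound exists_hom
  exists_Pn phi phi_pt phi_gr phi_pq)

variable {k : Type u} [Field k] {𝒱 : VarClass k} {ops : CycleOps 𝒱}

variable {T : HodgeTheory ops} {X Y P Q : 𝒱.Obj} {C : ClassPred T.W} {N : ℕ}

/-- The span of the classes of positive codimension. -/
def Hp (C : ClassPred T.W) (Y : 𝒱.Obj) : Submodule T.W.K (T.W.H Y) :=
  Submodule.span T.W.K {x | ∃ j, 1 ≤ j ∧ C.P Y j x}

lemma Hp_of {j : ℕ} (hj : 1 ≤ j) {x : T.W.H Y} (hx : C.P Y j x) : x ∈ Hp C Y :=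
  Submodule.subset_span ⟨j, hj, hx⟩

lemma Hp_map (f : P ⟶ Y) {x : T.W.H Y} (hx : x ∈ Hp C Y) : T.W.map f x ∈ Hp C P := by
  induction hx using Submodule.span_induction with
  | mem x h =>
    obtain ⟨j, hj, hx⟩ := h
    exact Hp_of hj (C.map f hx)
  | zero => rw [map_zero]; exact Submodule.zero_mem _
  | add y y' _ _ h h' => rw [map_add]; exact Submodule.add_mem _ h h'
  | smul t y _ h => rw [map_smul]; exact Submodule.smul_mem _ _ h

/-- The ideal generated by the classes of positive codimension. -/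
def Ih (C : ClassPred T.W) (Y : 𝒱.Obj) : Submodule T.W.K (T.W.H Y) :=
  Submodule.span T.W.K {x | ∃ y z, y ∈ Hp C Y ∧ y * z = x}

lemma Ih_of {y : T.W.H Y} (hy : y ∈ Hp C Y) : y ∈ Ih C Y :=
  Submodule.subset_span ⟨y, 1, hy, mul_one y⟩

lemma Ih_map (f : P ⟶ Y) {x : T.W.H Y} (hx : x ∈ Ih C Y) : T.W.map f x ∈ Ih C P := by
  induction hx using Submodule.span_induction with
  | mem x h =>
    obtain ⟨y, z, hy, rfl⟩ := h
    exact Submodule.subset_span ⟨T.W.map f y, T.W.map f z, Hp_map f hy, (map_mul _ _ _).symm⟩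
  | zero => rw [map_zero]; exact Submodule.zero_mem _
  | add y y' _ _ h h' => rw [map_add]; exact Submodule.add_mem _ h h'
  | smul t y _ h => rw [map_smul]; exact Submodule.smul_mem _ _ h

lemma Ih_mul {x : T.W.H Y} (hx : x ∈ Ih C Y) (w : T.W.H Y) : x * w ∈ Ih C Y := by
  induction hx using Submodule.span_induction with
  | mem x h =>
    obtain ⟨y, z, hy, rfl⟩ := h
    exact Submodule.subset_span ⟨y, z * w, hy, (mul_assoc _ _ _).symm⟩
  | zero => rw [zero_mul]; exact Submodule.zero_mem _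
  | add y y' _ _ h h' => rw [add_mul]; exact Submodule.add_mem _ h h'
  | smul t y _ h => rw [smul_mul_assoc]; exact Submodule.smul_mem _ _ h

/-- The coordinates of the classes of the ideal. -/
def KH (C : ClassPred T.W) (X : 𝒱.Obj) (B : Fin N → T.W.H X) (deg : Fin N → ℕ) (n : ℕ) :
    Submodule T.W.K ((Fin n → Fin N) → T.W.K) where
  carrier := {q | (n = 0 → q = 0) ∧ ∀ (Y : 𝒱.Obj) (f : Fm (T := T) B n Y) (ν : Fin n → ℕ),
    pt B deg f.F ν q ∈ Ih C Y}
  zero_mem' := by
    refine ⟨fun _ => rfl, fun Y f ν => ?_⟩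
    rw [pt]
    refine Submodule.sum_mem _ fun I _ => ?_
    rw [Pi.zero_apply, ite_self, zero_smul]
    exact Submodule.zero_mem _
  add_mem' := by
    rintro q q' ⟨h1, h2⟩ ⟨h1', h2'⟩
    refine ⟨fun hn => by rw [h1 hn, h1' hn, add_zero], fun Y f ν => ?_⟩
    have h3 : pt B deg f.F ν (q + q') = pt B deg f.F ν q + pt B deg f.F ν q' := by
      rw [pt, pt, pt, ← Finset.sum_add_distrib]
      refine Finset.sum_congr rfl fun I _ => ?_
      rw [← add_smul]
      congr 1
      split_ifs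
      · rfl
      · rw [add_zero]
    rw [h3]
    exact Submodule.add_mem _ (h2 Y f ν) (h2' Y f ν)
  smul_mem' := by
    rintro t q ⟨h1, h2⟩
    refine ⟨fun hn => by rw [h1 hn, smul_zero], fun Y f ν => ?_⟩
    have h3 : pt B deg f.F ν (t • q) = t • pt B deg f.F ν q := by
      rw [pt, pt, Finset.smul_sum]
      refine Finset.sum_congr rfl fun I _ => ?_
      rw [smul_smul]
      congr 1
      split_ifs
      · rfl
      · rw [mul_zero]
    rw [h3]
    exact Submodule.smul_mem _ _ (h2 Y f ν)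

/-- The family is stable under insertions. -/
lemma KH_ins {B : Basis (Fin N) T.W.K (T.W.H X)} {deg : Fin N → ℕ}
    (hdeg : ∀ b, B b ∈ T.W.gr X (deg b)) {l n : ℕ} (θ : Fin l ↪o Fin n)
    (q : (Fin l → Fin N) → T.W.K) (hq : q ∈ KH C X (fun b => B b) deg l) (J : Fin n → Fin N) :
    ins θ q J ∈ KH C X (fun b => B b) deg n := by
  rcases Nat.eq_zero_or_pos l with hl | hl
  · rw [hq.1 hl, ins_zero]
    exact Submodule.zero_mem _
  · refine ⟨fun hn => ?_, fun Y f ν => ?_⟩
    · subst hn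
      exact (θ ⟨0, hl⟩).elim0
    · obtain ⟨P, hP⟩ := exists_Pn (X := X) hl
      obtain ⟨g⟩ := hP.fm B
      obtain ⟨h, hh⟩ := g.lift Y fun a => f.F (θ a)
      rcases pt_ins (F := f.F) (G := g.F) (B := fun b => (B b : T.W.H X)) hdeg θ hh ν q J with
        h1 | ⟨s, L, h1⟩
      · rw [h1]
        exact Submodule.zero_mem _
      · rw [h1]
        exact Submodule.smul_mem _ _ (Ih_mul (Ih_map h (hq.2 P g _)) _)

/-- The property is stable under the Künneth projectors of the powers of `X`. -/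
def Kst (C : ClassPred T.W) (X : 𝒱.Obj) : Prop :=
  ∀ (N : ℕ) (B : Basis (Fin N) T.W.K (T.W.H X)) (deg : Fin N → ℕ),
    (∀ b, B b ∈ T.W.gr X (deg b)) → ∀ (n : ℕ) (Y : 𝒱.Obj)
      (f : Fm (T := T) (fun b => (B b : T.W.H X)) n Y), (∃ m, Pn X m Y) → ∀ (ν : Fin n → ℕ) (j : ℕ)
      (x : T.W.H Y), C.P Y j x → C.P Y j (phi f ν deg x)

lemma kst_hodge : Kst (hodgePred T) X := by
  intro N B deg hdeg n Y f _ ν j x hx
  obtain ⟨h1, h2⟩ := hx
  refine ⟨phi_gr hdeg f ν h1, ?_⟩
  have h3 := phi_pq hdeg f ν (m := 2 * j) (p := j) (q := j) (by push_cast; ring) h2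
  have h4 : (phi f ν deg).baseChange ℂ ((1 : ℂ) ⊗ₜ[T.W.K] x) = (1 : ℂ) ⊗ₜ[T.W.K] phi f ν deg x :=
    LinearMap.baseChange_tmul _ _ _
  have h5 : (em T.W ℂ x : ℂ ⊗[T.W.K] T.W.H Y) = (1 : ℂ) ⊗ₜ[T.W.K] x := rfl
  rw [h5, h4] at h3
  exact h3

lemma repr_KH (hC : Kst C X) {B : Basis (Fin N) T.W.K (T.W.H X)} {deg : Fin N → ℕ}
    (hdeg : ∀ b, B b ∈ T.W.gr X (deg b)) {n : ℕ} (hY : ∃ m, Pn X m Y)
    (f : Fm (T := T) (fun b => (B b : T.W.H X)) n Y) (hn : n ≠ 0) {x : T.W.H Y}
    (hx : x ∈ Hp C Y) : (f.BB.repr x : (Fin n → Fin N) → T.W.K) ∈ KH C X (fun b => B b) deg n := by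
  refine ⟨fun h => absurd h hn, fun Y' g ν => ?_⟩
  obtain ⟨h, hh⟩ := f.lift Y' g.F
  rw [← pt_map hh]
  refine Ih_map h (Ih_of ?_)
  rw [← phi_pt]
  induction hx using Submodule.span_induction with
  | mem x h' =>
    obtain ⟨j, hj, hx⟩ := h'
    exact Hp_of hj (hC N B deg hdeg n Y f hY ν j x hx)
  | zero => rw [map_zero]; exact Submodule.zero_mem _
  | add y y' _ _ h h' => rw [map_add]; exact Submodule.add_mem _ h h'
  | smul t y _ h => rw [map_smul]; exact Submodule.smul_mem _ _ h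

/-- The classes generated by the classes of positive codimension on `P`. -/
def Gh (C : ClassPred T.W) (P Y : 𝒱.Obj) : Submodule T.W.K (T.W.H Y) :=
  Submodule.span T.W.K {x | ∃ (f : Y ⟶ P) (y : T.W.H P) (z : T.W.H Y),
    y ∈ Hp C P ∧ T.W.map f y * z = x}

lemma Gh_of (f : Y ⟶ P) {y : T.W.H P} (hy : y ∈ Ih C P) (z : T.W.H Y) :
    T.W.map f y * z ∈ Gh C P Y := by
  induction hy using Submodule.span_induction with
  | mem x h =>
    obtain ⟨y, w, hy, rfl⟩ := h
    rw [map_mul, mul_assoc]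
    exact Submodule.subset_span ⟨f, y, _, hy, rfl⟩
  | zero => rw [map_zero, zero_mul]; exact Submodule.zero_mem _
  | add y y' _ _ h h' => rw [map_add, add_mul]; exact Submodule.add_mem _ h h'
  | smul t y _ h => rw [map_smul, smul_mul_assoc]; exact Submodule.smul_mem _ _ h

/-- The smaller powers. -/
lemma Gh_of_le {l n : ℕ} (hP : Pn X l P) (hQ : Pn X n Q) (hln : l ≤ n) (f : Y ⟶ P)
    {y : T.W.H P} (hy : y ∈ Ih C P) (z : T.W.H Y) : T.W.map f y * z ∈ Gh C Q Y := by
  obtain ⟨N, B, deg, hdeg⟩ := exists_hom T X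
  obtain ⟨φ⟩ := hP.fm B
  obtain ⟨g⟩ := hQ.fm B
  have hl := hP.pos
  obtain ⟨a, ha⟩ := φ.lift Q fun i => g.F (Fin.castLE hln i)
  obtain ⟨b, hb⟩ := g.lift P fun i => if hi : (i : ℕ) < l then φ.F ⟨i, hi⟩ else φ.F ⟨0, hl⟩
  have hab : ∀ i, (b ≫ a) ≫ φ.F i = φ.F i := by
    intro i
    rw [Category.assoc, ha, hb]
    exact dif_pos i.2
  have hid : ∀ x : T.W.H P, T.W.map b (T.W.map a x) = x := by
    intro x
    rw [← T.W.map_comp, ← φ.BB.sum_repr x, map_sum]
    refine Finset.sum_congr rfl fun I _ => ?_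
    rw [map_smul, φ.bas, wf_map (fun b => (B b : T.W.H X)) φ.F φ.F hab]
  rw [← hid y, ← T.W.map_comp]
  exact Gh_of _ (Ih_map a hy) z

/-- **The classes of positive codimension are in the ideal generated by those on one power.** -/
theorem exists_gen (hC : Kst C X) :
    ∃ M : ℕ, ∀ (n l : ℕ) (Y Q : 𝒱.Obj), Pn X n Y → Pn X l Q → M ≤ l →
      Hp C Y ≤ Gh C Q Y := by
  obtain ⟨N, B, deg, hdeg⟩ := exists_hom T X
  obtain ⟨M, hM⟩ := exists_bound (fun n => KH C X (fun b => B b) deg n)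
    (fun θ q hq J => KH_ins hdeg θ q hq J)
  refine ⟨M, fun n l' Y Q hY hQ hMl x hx => ?_⟩
  obtain ⟨f⟩ := hY.fm B
  have hn : n ≠ 0 := by have := hY.pos; omega
  have h2 := hM n _ (repr_KH hC hdeg ⟨n, hY⟩ f hn hx)
  have h3 : ∀ q ∈ Submodule.span T.W.K {g : (Fin n → Fin N) → T.W.K | ∃ l ≤ M,
      ∃ (θ : Fin l ↪o Fin n), ∃ f0 ∈ KH C X (fun b => (B b : T.W.H X)) deg l,
        ∃ J, ins θ f0 J = g}, ∑ I, q I • wf (fun b => B b) f.F I ∈ Gh C Q Y := by
    intro q hq
    induction hq using Submodule.span_induction with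
    | mem q h' =>
      obtain ⟨l, hl, θ, f0, hf0, J, rfl⟩ := h'
      rcases Nat.eq_zero_or_pos l with hl0 | hl0
      · rw [hf0.1 hl0, ins_zero]
        refine Submodule.sum_mem _ fun I _ => ?_
        rw [Pi.zero_apply, zero_smul]
        exact Submodule.zero_mem _
      · obtain ⟨P, hP⟩ := exists_Pn (X := X) hl0
        obtain ⟨g⟩ := hP.fm B
        obtain ⟨h', hh'⟩ := g.lift Y fun a => f.F (θ a)
        rw [pt_sum (deg := deg)]
        refine Submodule.sum_mem _ fun ν _ => ?_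
        rcases pt_ins (F := f.F) (G := g.F) (B := fun b => (B b : T.W.H X)) hdeg θ hh' ν f0 J with
          h1 | ⟨s, L, h1⟩
        · rw [h1]
          exact Submodule.zero_mem _
        · rw [h1]
          exact Submodule.smul_mem _ _
            (Gh_of_le hP hQ (hl.trans hMl) h' (hf0.2 P g _) _)
    | zero =>
      refine Submodule.sum_mem _ fun I _ => ?_
      rw [Pi.zero_apply, zero_smul]
      exact Submodule.zero_mem _
    | add q q' _ _ h1 h1' =>
      have h4 : ∑ I, (q + q') I • wf (fun b => (B b : T.W.H X)) f.F I =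
          ∑ I, q I • wf (fun b => (B b : T.W.H X)) f.F I +
            ∑ I, q' I • wf (fun b => (B b : T.W.H X)) f.F I := by
        rw [← Finset.sum_add_distrib]
        exact Finset.sum_congr rfl fun I _ => by rw [Pi.add_apply, add_smul]
      rw [h4]
      exact Submodule.add_mem _ h1 h1'
    | smul t q _ h1 =>
      have h4 : ∑ I, (t • q) I • wf (fun b => (B b : T.W.H X)) f.F I =
          t • ∑ I, q I • wf (fun b => (B b : T.W.H X)) f.F I := by
        rw [Finset.smul_sum]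
        exact Finset.sum_congr rfl fun I _ => by rw [Pi.smul_apply, smul_eq_mul, mul_smul]
      rw [h4]
      exact Submodule.smul_mem _ _ h1
  have h4 := h3 _ h2
  have h5 : x = ∑ I, f.BB.repr x I • wf (fun b => (B b : T.W.H X)) f.F I := by
    conv_lhs => rw [← f.BB.sum_repr x]
    exact Finset.sum_congr rfl fun I _ => by rw [f.bas]
  rw [h5]
  exact h4

end Run7.h853.Ho
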