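import Pool.Agent.Run7.h853.Ho.Ge

/-!
# Finite generation of the rings of classes
-/

set_option linter.unusedSectionVars false
set_option linter.unusedVariables false

open CategoryTheory AlgebraicGeometry TensorProduct

universe u

namespace Run7.h853.Ho

open Module
open Pool.Agent.H914 Pool.Agent.H914.VarClass Pool.Agent.H914.VarClass.Obj
  Pool.Agent.H914.WeilCohomology
open Pool.Agent.Y133.Half Pool.Agent.Y121.AH Pool.Agent.N996.BP.Geo
open Run7.h853.Gn (Pn)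

variable {k : Type u} [Field k] {𝒱 : VarClass k} {ops : CycleOps 𝒱}

variable {T : HodgeTheory ops} {X Y P Q : 𝒱.Obj} {C : ClassPred T.W} {N : ℕ}

/-- The pairing on the classes is nondegenerate. -/
def Nd (C : ClassPred T.W) (Y : 𝒱.Obj) : Prop :=
  ∀ x ∈ C.sp Y, (∀ y ∈ C.sp Y, T.W.tr Y (x * y) = 0) → x = 0

lemma hp_le : Hp C Y ≤ C.sp Y := by
  refine Submodule.span_le.2 ?_
  rintro x ⟨j, _, hj⟩
  exact ClassPred.sp_of hj

lemma sp_mul {x y : T.W.H Y} (hx : x ∈ C.sp Y) (hy : y ∈ C.sp Y) : x * y ∈ C.sp Y :=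
  C.sys.mul hx hy

/-- The projection to the classes. -/
lemma exists_R (nd : Nd C Y) : ∃ R : T.W.H Y →ₗ[T.W.K] T.W.H Y, (∀ z, R z ∈ C.sp Y) ∧
    ∀ z, ∀ y ∈ C.sp Y, T.W.tr Y (R z * y) = T.W.tr Y (z * y) := by
  obtain ⟨G, hG⟩ : ∃ G : T.W.H Y →ₗ[T.W.K] (C.sp Y →ₗ[T.W.K] T.W.K),
      ∀ z y, G z y = T.W.tr Y (z * (y : T.W.H Y)) :=
    ⟨((LinearMap.mul T.W.K (T.W.H Y)).compr₂ (T.W.tr Y)).domRestrict₂ (C.sp Y),
      fun z y => rfl⟩
  obtain ⟨F, hF⟩ : ∃ F : C.sp Y →ₗ[T.W.K] (C.sp Y →ₗ[T.W.K] T.W.K),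
      ∀ z y, F z y = T.W.tr Y ((z : T.W.H Y) * (y : T.W.H Y)) :=
    ⟨G ∘ₗ (C.sp Y).subtype, fun z y => hG z y⟩
  have hinj : Function.Injective F := by
    rw [← LinearMap.ker_eq_bot, LinearMap.ker_eq_bot']
    intro x hx
    refine Subtype.ext (nd x x.2 fun y hy => ?_)
    have h1 := congrArg (fun g : C.sp Y →ₗ[T.W.K] T.W.K => g ⟨y, hy⟩) hx
    exact (hF x ⟨y, hy⟩).symm.trans h1
  have hsurj : Function.Surjective F :=
    (LinearMap.injective_iff_surjective_of_finrank_eq_finrank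
      (Subspace.dual_finrank_eq).symm).1 hinj
  obtain ⟨e, he⟩ : ∃ e : C.sp Y ≃ₗ[T.W.K] (C.sp Y →ₗ[T.W.K] T.W.K), ∀ x, e x = F x :=
    ⟨LinearEquiv.ofBijective F ⟨hinj, hsurj⟩, fun x => rfl⟩
  refine ⟨(C.sp Y).subtype ∘ₗ e.symm.toLinearMap ∘ₗ G, fun z => Subtype.mem _, fun z y hy => ?_⟩
  have h1 : F (e.symm (G z)) = G z := by rw [← he, LinearEquiv.apply_symm_apply]
  have h2 := congrArg (fun g : C.sp Y →ₗ[T.W.K] T.W.K => g ⟨y, hy⟩) h1
  exact (hF _ ⟨y, hy⟩).symm.trans (h2.trans (hG z ⟨y, hy⟩))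

/-- The classes are combinations of products of pull-backs and classes. -/
lemma red (nd : Nd C Y) {x : T.W.H Y} (hx : x ∈ C.sp Y) (h : x ∈ Gh C Q Y) :
    x ∈ Submodule.span T.W.K {x | ∃ (f : Y ⟶ Q) (y : T.W.H Q) (s : T.W.H Y),
      y ∈ Hp C Q ∧ s ∈ C.sp Y ∧ T.W.map f y * s = x} := by
  obtain ⟨R, hR1, hR2⟩ := exists_R nd
  have hsub : ∀ y : T.W.H Y, y ∈ Hp C Y → y ∈ C.sp Y := fun y hy => hp_le hy
  have hRx : R x = x := by
    rw [← sub_eq_zero]
    refine nd _ (Submodule.sub_mem _ (hR1 x) hx) fun y hy => ?_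
    rw [sub_mul, map_sub, hR2 x y hy, sub_self]
  have hRm : ∀ g ∈ C.sp Y, ∀ z, R (g * z) = g * R z := by
    intro g hg z
    rw [← sub_eq_zero]
    refine nd _ (Submodule.sub_mem _ (hR1 _) (sp_mul hg (hR1 z))) fun y hy => ?_
    have h1 : g * R z * y = R z * (g * y) := by
      rw [PH.even_comm (ClassPred.sp_even hg) (R z), mul_assoc]
    have h2 : z * (g * y) = g * z * y := by
      rw [PH.even_comm (ClassPred.sp_even hg) z, mul_assoc]
    rw [sub_mul, map_sub, hR2 _ y hy, h1, hR2 z _ (sp_mul hg hy), h2, sub_self]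
  rw [← hRx]
  clear hRx hx
  induction h using Submodule.span_induction with
  | mem x h =>
    obtain ⟨f, y, z, hy, rfl⟩ := h
    rw [hRm _ (hsub _ (Hp_map f hy))]
    exact Submodule.subset_span ⟨f, y, R z, hy, hR1 z, rfl⟩
  | zero => rw [map_zero]; exact Submodule.zero_mem _
  | add y y' _ _ h h' => rw [map_add]; exact Submodule.add_mem _ h h'
  | smul t y _ h => rw [map_smul]; exact Submodule.smul_mem _ _ h

/-- The classes of codimension at least `r`. -/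
def Sr (C : ClassPred T.W) (r : ℕ) (Y : 𝒱.Obj) : Submodule T.W.K (T.W.H Y) :=
  Submodule.span T.W.K {x | ∃ j, r ≤ j ∧ C.P Y j x}

lemma Sr_mul {r : ℕ} {x y : T.W.H Y} (hx : x ∈ Hp C Y) (hy : y ∈ Sr C r Y) :
    x * y ∈ Sr C (r + 1) Y := by
  induction hx using Submodule.span_induction with
  | mem x h =>
    obtain ⟨i, hi, hx⟩ := h
    induction hy using Submodule.span_induction with
    | mem y h =>
      obtain ⟨j, hj, hy⟩ := h
      exact Submodule.subset_span ⟨i + j, by omega, C.mul hx hy⟩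
    | zero => rw [mul_zero]; exact Submodule.zero_mem _
    | add y y' _ _ h h' => rw [mul_add]; exact Submodule.add_mem _ h h'
    | smul t y _ h => rw [mul_smul_comm]; exact Submodule.smul_mem _ _ h
  | zero => rw [zero_mul]; exact Submodule.zero_mem _
  | add y y' _ _ h h' => rw [add_mul]; exact Submodule.add_mem _ h h'
  | smul t y _ h => rw [smul_mul_assoc]; exact Submodule.smul_mem _ _ h

lemma sp_split {x : T.W.H Y} (hx : x ∈ C.sp Y) : x ∈ Submodule.span T.W.K {1} ⊔ Hp C Y := by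
  refine ClassPred.sp_ind (q := fun x => x ∈ Submodule.span T.W.K {1} ⊔ Hp C Y) ?_ ?_ ?_ hx
  · intro j x hx
    rcases Nat.eq_zero_or_pos j with h | h
    · subst h
      have h1 := C.gr hx
      rw [mul_zero, T.W.gr_zero] at h1
      exact Submodule.mem_sup_left h1
    · exact Submodule.mem_sup_right (Hp_of h hx)
  · exact Submodule.zero_mem _
  · intro a b ha hb
    exact Submodule.add_mem _ ha hb

/-- **The ring of the classes is generated by the pull-backs.** -/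
theorem adjoin (nd : Nd C Y) (h : Hp C Y ≤ Gh C Q Y) {x : T.W.H Y} (hx : x ∈ C.sp Y) :
    x ∈ Algebra.adjoin T.W.K {x | ∃ (f : Y ⟶ Q) (y : T.W.H Q), y ∈ C.sp Q ∧
      T.W.map f y = x} := by
  obtain ⟨A, hA⟩ : ∃ A, A = Algebra.adjoin T.W.K {x | ∃ (f : Y ⟶ Q) (y : T.W.H Q), y ∈ C.sp Q ∧
      T.W.map f y = x} := ⟨_, rfl⟩
  rw [← hA]
  have hsub : ∀ {Z : 𝒱.Obj} (y : T.W.H Z), y ∈ Hp C Z → y ∈ C.sp Z := fun y hy => hp_le hy
  have key : ∀ r, 1 ≤ r → ∀ x ∈ Hp C Y, x ∈ Subalgebra.toSubmodule A ⊔ Sr C r Y := by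
    intro r hr
    induction r, hr using Nat.le_induction with
    | base => exact fun x hx => Submodule.mem_sup_right hx
    | succ r hr ih =>
      intro x hx
      have h1 := red nd (hsub x hx) (h hx)
      clear hx
      induction h1 using Submodule.span_induction with
      | mem x h' =>
        obtain ⟨f, y, s, hy, hs, rfl⟩ := h'
        have hfy : T.W.map f y ∈ A := by
          rw [hA]
          exact Algebra.subset_adjoin ⟨f, y, hsub y hy, rfl⟩
        obtain ⟨a, ha, b, hb, rfl⟩ := Submodule.mem_sup.1 (sp_split hs)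
        obtain ⟨a', ha', b', hb', rfl⟩ := Submodule.mem_sup.1 (ih b hb)
        obtain ⟨t, rfl⟩ := Submodule.mem_span_singleton.1 ha
        rw [← add_assoc, mul_add]
        refine Submodule.add_mem _ (Submodule.mem_sup_left ?_)
          (Submodule.mem_sup_right (Sr_mul (Hp_map f hy) hb'))
        exact A.mul_mem hfy (A.add_mem (A.smul_mem A.one_mem t) ha')
      | zero => exact Submodule.zero_mem _
      | add y y' _ _ h h' => exact Submodule.add_mem _ h h'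
      | smul t y _ h => exact Submodule.smul_mem _ _ h
  have hbot : Sr C (Y.dim + 1) Y = ⊥ := by
    rw [eq_bot_iff]
    refine Submodule.span_le.2 ?_
    rintro x ⟨j, hj, hx⟩
    have h1 := C.gr hx
    rw [T.W.gr_eq_bot Y _ (by omega)] at h1
    exact h1
  obtain ⟨a, ha, b, hb, rfl⟩ := Submodule.mem_sup.1 (sp_split hx)
  have h2 := key (Y.dim + 1) (by omega) b hb
  rw [hbot, sup_bot_eq] at h2
  obtain ⟨t, rfl⟩ := Submodule.mem_span_singleton.1 ha
  exact A.add_mem (A.smul_mem A.one_mem t) h2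

/-- **One power generates the classes on all powers.** -/
theorem exists_ring (hC : Kst C X) (nd : ∀ Y, Nd C Y) :
    ∃ M : ℕ, ∀ (n l : ℕ) (Y Q : 𝒱.Obj), Pn X n Y → Pn X l Q → M ≤ l → ∀ x ∈ C.sp Y,
      x ∈ Algebra.adjoin T.W.K {x | ∃ (f : Y ⟶ Q) (y : T.W.H Q), y ∈ C.sp Q ∧
        T.W.map f y = x} := by
  obtain ⟨M, hM⟩ := exists_gen hC
  exact ⟨M, fun n l Y Q hY hQ hl x hx => adjoin (nd Y) (hM n l Y Q hY hQ hl) hx⟩

theorem hodge_ring (T : HodgeTheory ops) (X : 𝒱.Obj) :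
    ∃ M : ℕ, ∀ (n l : ℕ) (Y Q : 𝒱.Obj), Pn X n Y → Pn X l Q → M ≤ l →
      ∀ x ∈ (hodgePred T).sp Y, x ∈ Algebra.adjoin T.W.K
        {x | ∃ (f : Y ⟶ Q) (y : T.W.H Q), y ∈ (hodgePred T).sp Q ∧ T.W.map f y = x} :=
  exists_ring kst_hodge fun Y x hx h => hodge_nondeg hx h

end Run7.h853.Ho
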